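import Pool.Agent.Helper94.AF.Net
import Pool.Agent.Helper65.AF.LP
import Pool.Agent.Helper18.AF.LevS
import Pool.Agent.Helper46.AF.LevExpFin
import Pool.Agent.Helper6.AF.RR
import Pool.Agent.Helper30.AF.Seq
import Pool.Agent.Helper33.AF.Rec
import Pool.Agent.Helper83.AF.Lv
import Pool.Agent.Helper82.AN.EtaLip

/-! # Project AF, block ALL: all parameters at once -/

set_option autoImplicit false
open MeasureTheory Real Set Filter Topology
open scoped ENNReal

namespace Pool.Agent.Helper5.AF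

open Pool.Agent.Helper18.UC (nn LL sqo rep toT)
open Pool.Agent.Helper46.QP (TT Td)
open Pool.Agent.Helper82.AN (Ik Ow lawL wt bas eta Hw sq SepR)
open Pool.Agent.Helper95.AF
open Pool.Agent.Helper6.AF (rr_near)
open Pool.Agent.Helper30.AF (seq_ex)
open Pool.Agent.Helper33.AF (rec_mean)
open Pool.Agent.Helper83.AF (lv_of)
open Pool.Agent.Helper65.AF (lev_prob0)
open Pool.Agent.Helper94.AF (net_ex)

variable {d : ℕ}

theorem ho_cont {f : Td d → ℝ} (hf : Ho f) : Continuous f := by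
  obtain ⟨K, r, hr, h⟩ := hf
  rw [continuous_iff_continuousAt]
  intro x
  rw [ContinuousAt, tendsto_iff_dist_tendsto_zero]
  have h1 : Tendsto (fun y => K * dist y x ^ r) (𝓝 x) (𝓝 (K * (dist x x) ^ r)) := by
    refine Tendsto.const_mul K ?_
    exact ((continuous_id.dist continuous_const).tendsto x).rpow_const (Or.inr hr.le)
  rw [dist_self, Real.zero_rpow hr.ne', mul_zero] at h1
  refine squeeze_zero (fun _ => dist_nonneg) (fun y => ?_) h1
  rw [Real.dist_eq]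
  exact h y x

theorem frc_cont {γ : ℝ} {k : ℕ} {e : Fin k → Td d → ℝ} (he : ∀ i, Continuous (e i)) (U : Fin (k + 1) → ℝ) {w : Ow d}
    (hw : Hw γ w ≠ ∞) : Continuous (frc γ e U w) := by
  unfold frc
  exact (continuous_finsetSum _ fun i _ => continuous_const.mul (he i)).add
    (continuous_const.mul (Pool.Agent.Helper82.AN.eta_cont hw))

theorem et_pos (i : ℕ) : 0 < et i := by
  unfold et
  positivity

theorem pp_pos (i : ℕ) : 0 < pp i := by
  induction i with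
  | zero => norm_num [pp]
  | succ i ih =>
    have h := et_pos i
    show 0 < pp i * et i / 16
    positivity

theorem inv_pp (i : ℕ) : 1 / pp i ≤ Real.exp (20 * ((i : ℝ) + 1) ^ 2) := by
  have hb : ∀ n : ℕ, (2 : ℝ) ^ n ≤ Real.exp n := fun n => by
    have h1 : (2 : ℝ) ≤ Real.exp 1 := by
      have := Real.add_one_le_exp (1 : ℝ)
      linarith
    calc (2 : ℝ) ^ n ≤ Real.exp 1 ^ n := pow_le_pow_left₀ (by norm_num) h1 n
      _ = Real.exp n := by rw [← Real.exp_nat_mul, mul_one]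
  induction i with
  | zero =>
    have h1 := hb 20
    have h2 : pp 0 = 1 / 20000 := rfl
    rw [h2]
    norm_num at h1 ⊢
    linarith
  | succ i ih =>
    have h1 : pp (i + 1) = pp i * et i / 16 := rfl
    have h2 : 1 / pp (i + 1) = 1 / pp i * (3200 * 2 ^ i) := by
      rw [h1]
      unfold et
      have h3 := (pp_pos i).ne'
      field_simp
      norm_num
    rw [h2]
    have h3 : (3200 : ℝ) * 2 ^ i ≤ Real.exp ((i : ℝ) + 12) := by
      have h4 := hb (i + 12)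
      push_cast at h4
      refine le_trans ?_ h4
      rw [pow_add]
      have : (0 : ℝ) < 2 ^ i := by positivity
      nlinarith
    calc 1 / pp i * (3200 * 2 ^ i) ≤ Real.exp (20 * ((i : ℝ) + 1) ^ 2) * Real.exp ((i : ℝ) + 12) :=
          mul_le_mul ih h3 (by positivity) (Real.exp_pos _).le
      _ = Real.exp (20 * ((i : ℝ) + 1) ^ 2 + ((i : ℝ) + 12)) := by rw [← Real.exp_add]
      _ ≤ Real.exp (20 * (((i + 1 : ℕ) : ℝ) + 1) ^ 2) := by
        refine Real.exp_le_exp.2 ?_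
        push_cast
        have : (0 : ℝ) ≤ i := Nat.cast_nonneg i
        nlinarith

theorem dc_mono {D D' τ : ℝ} {α : Td d} (h : DC D τ α) (hD : D' ≤ D) : DC D' τ α := fun j hj =>
  (mul_le_mul_of_nonneg_right hD (by positivity)).trans (h j hj)

theorem shb_zero (b : ℕ → ℝ) : shb b 0 = b := rfl

theorem rl_near {a a' L : ℝ} {i n : ℕ} {b b' : ℕ → ℝ} (hL : 0 ≤ L)
    (h : ∀ z, Real.log (nn (pM a' b' n z)) - 1 ≤ Real.log (nn (pM a b n z))) : Rl a' L i n b' - 1 ≤ Rl a L i n b :=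
  rr_near (by positivity) (Real.exp_pos _).le zero_le_one h

/-- transfer of the base event -/
theorem ev0_near {a a' L : ℝ} {n : ℕ} {b b' : ℕ → ℝ} (hL : 0 ≤ L)
    (h : ∀ z, Real.log (nn (pM a' b' n z)) - 1 ≤ Real.log (nn (pM a b n z))) (hb : b ∈ Ev0 a L n 0) : b' ∈ Ev0 a' L n (-1) := by
  have h1 := rl_near (i := 0) hL h
  have h2 : Rl a L 0 n b < (1 - et 0) * n * L - 0 := hb
  show Rl a' L 0 n b' < (1 - et 0) * n * L - -1
  linarith

/-- transfer of the event of the level step -/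
theorem evS_near {a a' L : ℝ} {i n J : ℕ} {b b' : ℕ → ℝ} (hL : 0 ≤ L)
    (h : ∀ m m' : ℕ, m + m' ≤ J * (n + 5) → ∀ z,
      |Real.log (nn (pM a (shb b m) m' z)) - Real.log (nn (pM a' (shb b' m) m' z))| ≤ 1)
    (hb : b ∈ EvS a L i n J 0) : b' ∈ EvS a' L i n J (-(J + 1)) := by
  have h0 : Rl a' L (i + 1) (J * (n + 5)) b' - 1 ≤ Rl a L (i + 1) (J * (n + 5)) b := rl_near hL fun z => by
    have h1 := abs_le.1 (h 0 (J * (n + 5)) (by omega) z)
    rw [shb_zero, shb_zero] at h1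
    linarith [h1.1]
  have hj : ∀ j ∈ Finset.range J, Rl a L i n (shb b (j * (n + 5) + 5)) ≤ Rl a' L i n (shb b' (j * (n + 5) + 5)) + 1 := by
    intro j hj
    have hj' := Finset.mem_range.1 hj
    have h2 : j * (n + 5) + 5 + n ≤ J * (n + 5) := by
      calc j * (n + 5) + 5 + n = (j + 1) * (n + 5) := by ring
        _ ≤ J * (n + 5) := Nat.mul_le_mul_right _ hj'
    have h3 : Rl a L i n (shb b (j * (n + 5) + 5)) - 1 ≤ Rl a' L i n (shb b' (j * (n + 5) + 5)) := rl_near hL fun z => by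
      have h1 := abs_le.1 (h _ _ h2 z)
      linarith [h1.2]
    linarith
  have hs := Finset.sum_le_sum hj
  rw [Finset.sum_add_distrib, Finset.sum_const, Finset.card_range, nsmul_eq_mul, mul_one] at hs
  have h2 : Rl a L (i + 1) (J * (n + 5)) b <
    (∑ j ∈ Finset.range J, Rl a L i n (shb b (j * (n + 5) + 5))) - et i * (J * (n + 5) : ℕ) * L - 0 := hb
  show Rl a' L (i + 1) (J * (n + 5)) b' <
    (∑ j ∈ Finset.range J, Rl a' L i n (shb b' (j * (n + 5) + 5))) - et i * (J * (n + 5) : ℕ) * L - -(J + 1)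
  linarith

/-- the union over a net -/
theorem net_union {Ω V : Type*} [MeasurableSpace Ω] {P : Measure Ω} {N : Finset V} {G n L : ℝ} (hN : (N.card : ℝ) ≤ Real.exp (G * n * L))
    {B : V → Set Ω} (hB : ∀ v ∈ N, P (B v) ≤ ENNReal.ofReal (Real.exp (-((G + 2) * n * L)))) :
    P (⋃ v ∈ N, B v) ≤ ENNReal.ofReal (Real.exp (-(2 * n * L))) := by
  calc P (⋃ v ∈ N, B v) ≤ ∑ v ∈ N, P (B v) := measure_biUnion_finset_le _ _
    _ ≤ ∑ v ∈ N, ENNReal.ofReal (Real.exp (-((G + 2) * n * L))) := Finset.sum_le_sum hB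
    _ = ENNReal.ofReal ((N.card : ℝ) * Real.exp (-((G + 2) * n * L))) := by
      rw [Finset.sum_const, nsmul_eq_mul, ENNReal.ofReal_mul (by positivity), ENNReal.ofReal_natCast]
    _ ≤ ENNReal.ofReal (Real.exp (-(2 * n * L))) := by
      refine ENNReal.ofReal_le_ofReal ?_
      calc (N.card : ℝ) * Real.exp (-((G + 2) * n * L)) ≤ Real.exp (G * n * L) * Real.exp (-((G + 2) * n * L)) :=
            mul_le_mul_of_nonneg_right hN (Real.exp_pos _).le
        _ = Real.exp (-(2 * n * L)) := by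
          rw [← Real.exp_add]
          congr 1
          ring

/-- **ALL**: all parameters at once -/
theorem all_par {γ τ : ℝ} (hd : 0 < d) (hγ : 0 < γ) (h1 : 1 / d ≤ τ) (h2 : τ * γ < 1) {k : ℕ} {e : Fin k → Td d → ℝ}
    (he : ∀ i, Ho (e i)) : ∀ᵐ w ∂lawL d, ∀ D : ℝ, 0 < D → ∃ A : ℝ, 1 ≤ A ∧ ∀ (α : Td d) (a : ℝ) (U : Fin (k + 1) → ℝ),
      DC D τ α → A ≤ |a| → |a| ^ (-(1 / 4000 : ℝ)) ≤ |U 0| → (∀ i, |U i| ≤ |a|) → Lv α a (frc γ e U w) := by
  have hec : ∀ i, Continuous (e i) := fun i => ho_cont (he i)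
  have hτ : 0 < τ := lt_of_lt_of_le (by positivity) h1
  obtain ⟨x, hx0, hx1, hx2⟩ : ∃ x : ℝ, 0 < x ∧ τ * γ < x ∧ x < 1 := by
    have := mul_pos hτ hγ
    exact ⟨(τ * γ + 1) / 2, by linarith, by linarith, by linarith⟩
  obtain ⟨G, hG1, hG⟩ := net_ex (d := d) γ he
  obtain ⟨K0, hK0⟩ := lev_prob0 hd hγ h1 hx1 hx2 (G + 2) (by linarith)
  obtain ⟨c, K, hK, hKS⟩ := Pool.Agent.Helper18.AF.lev_probS_of Pool.Agent.Helper46.AF.lev_exp hd hγ h1 hx1 hx2 (G + 2) (by linarith)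
  -- the lengths
  obtain ⟨K', hK'd⟩ : ∃ K' : ℕ → ℝ, K' = fun i => max (K i) (max (10000 * 2 ^ i) (Real.exp ((i : ℝ) + 1) / pp i)) := ⟨_, rfl⟩
  have hK' : ∀ i, K' i ≤ Real.exp ((max c 0 + 40) * ((i : ℝ) + 1) ^ 2) := by
    intro i
    have hi : (0 : ℝ) ≤ i := Nat.cast_nonneg i
    have hi2 : (i : ℝ) + 1 ≤ ((i : ℝ) + 1) ^ 2 := by nlinarith
    rw [hK'd]
    refine max_le ((hK i).trans (Real.exp_le_exp.2 ?_)) (max_le ?_ ?_)
    · have := le_max_left c 0
      have h3 : (0 : ℝ) ≤ ((i : ℝ) + 1) ^ 2 := by positivity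
      nlinarith
    · have h3 : (2 : ℝ) ≤ Real.exp 1 := by
        have := Real.add_one_le_exp (1 : ℝ)
        linarith
      have h4 : (2 : ℝ) ^ (i + 14) ≤ Real.exp ((i + 14 : ℕ) : ℝ) := by
        calc (2 : ℝ) ^ (i + 14) ≤ Real.exp 1 ^ (i + 14) := pow_le_pow_left₀ (by norm_num) h3 _
          _ = Real.exp ((i + 14 : ℕ) : ℝ) := by rw [← Real.exp_nat_mul, mul_one]
      have h5 : (10000 : ℝ) * 2 ^ i ≤ 2 ^ (i + 14) := by
        rw [pow_add]
        have : (0 : ℝ) < 2 ^ i := by positivity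
        nlinarith
      refine h5.trans (h4.trans (Real.exp_le_exp.2 ?_))
      push_cast
      have := le_max_right c 0
      nlinarith
    · have h3 := inv_pp i
      calc Real.exp ((i : ℝ) + 1) / pp i = Real.exp ((i : ℝ) + 1) * (1 / pp i) := by ring
        _ ≤ Real.exp ((i : ℝ) + 1) * Real.exp (20 * ((i : ℝ) + 1) ^ 2) := mul_le_mul_of_nonneg_left h3 (Real.exp_pos _).le
        _ = Real.exp ((i : ℝ) + 1 + 20 * ((i : ℝ) + 1) ^ 2) := by rw [← Real.exp_add]
        _ ≤ _ := by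
          refine Real.exp_le_exp.2 ?_
          have := le_max_right c 0
          have h3 : (0 : ℝ) ≤ ((i : ℝ) + 1) ^ 2 := by positivity
          nlinarith
  obtain ⟨n, J, hn0, hnJ, hKn, hKx⟩ := seq_ex hx0 hx2 hK' ⌈K0⌉₊
  have hKle : ∀ i, K i ≤ K' i := fun i => by
    rw [hK'd]
    exact le_max_left _ _
  have hn1 : ∀ i, (10000 * 2 ^ i : ℝ) ≤ n i := fun i => by
    refine le_trans ?_ (hKn i)
    rw [hK'd]
    exact (le_max_left _ _).trans (le_max_right _ _)
  have hn2 : ∀ i : ℕ, Real.exp ((i : ℝ) + 1) ≤ pp i * n i := fun i => by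
    have h3 : Real.exp ((i : ℝ) + 1) / pp i ≤ n i := by
      refine le_trans ?_ (hKn i)
      rw [hK'd]
      exact (le_max_right _ _).trans (le_max_right _ _)
    rw [div_le_iff₀ (pp_pos i)] at h3
    linarith
  have hK0n : K0 ≤ n 0 := (Nat.le_ceil K0).trans (by exact_mod_cast hn0)
  have hn3 : ∀ i : ℕ, (i : ℝ) + 1 ≤ n i := fun i => by
    refine le_trans ?_ (hn1 i)
    have h3 : (i : ℝ) + 1 ≤ 2 ^ i := by exact_mod_cast Nat.lt_two_pow_self (n := i)
    have h4 : (0 : ℝ) < 2 ^ i := by positivity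
    linarith
  have hn4 : ∀ i, 1 ≤ n i := fun i => by
    have h3 := hn3 i
    have h4 : (0 : ℝ) ≤ i := Nat.cast_nonneg i
    have h5 : (1 : ℝ) ≤ n i := by linarith
    exact_mod_cast h5
  -- the nets
  have hnet : ∀ m l i : ℕ, ∃ N : Finset (ℝ × (Fin (k + 1) → ℝ) × Td d), (N.card : ℝ) ≤ Real.exp (G * n i * ((l : ℝ) + 1)) ∧
      ↑N ⊆ Bx k ((l : ℝ) + 1) {α : Td d | DC (1 / ((m : ℝ) + 1)) τ α} ∧
      ∀ u ∈ Bx k ((l : ℝ) + 1) {α : Td d | DC (1 / ((m : ℝ) + 1)) τ α}, ∃ v ∈ N, ∀ w : Ow d,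
        Hw γ w ≤ ENNReal.ofReal (Real.exp ((l : ℝ) + 1)) →
        (∀ x y, |eta γ w x - eta γ w y| ≤ Real.exp ((l : ℝ) + 1) * dist x y) → ∀ (θ : Td d) (m m' : ℕ), m + m' ≤ n i → ∀ z,
          |Real.log (nn (pM u.1 (shb (sq u.2.2 (frc γ e u.2.1 w) θ) m) m' z)) -
            Real.log (nn (pM v.1 (shb (sq v.2.2 (frc γ e v.2.1 w) θ) m) m' z))| ≤ 1 := fun m l i =>
    hG (n i) ((l : ℝ) + 1) (hn4 i) (by linarith [Nat.cast_nonneg (α := ℝ) l]) _
  choose N hNc hNB hNn using hnet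
  -- the bad events
  obtain ⟨B0, hB0⟩ : ∃ B0 : ℕ → ℝ × (Fin (k + 1) → ℝ) × Td d → Set (Ow d), B0 = fun (l : ℕ) (v : ℝ × (Fin (k + 1) → ℝ) × Td d) =>
      {w | et 0 ≤ volume.real {θ : Td d | sq v.2.2 (frc γ e v.2.1 w) θ ∈ Ev0 v.1 ((l : ℝ) + 1) (n 0) (-1)}} := ⟨_, rfl⟩
  obtain ⟨BS, hBS⟩ : ∃ BS : ℕ → ℕ → ℝ × (Fin (k + 1) → ℝ) × Td d → Set (Ow d), BS = fun (l i : ℕ) (v : ℝ × (Fin (k + 1) → ℝ) × Td d) =>
      {w | et (i + 1) ≤ volume.real {θ : Td d | sq v.2.2 (frc γ e v.2.1 w) θ ∈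
        EvS v.1 ((l : ℝ) + 1) i (n i) (J i) (-(J i + 1))}} := ⟨_, rfl⟩
  have hprob : ∀ m : ℕ, ∀ᵐ w ∂lawL d, ∀ᶠ l : ℕ in atTop, (∀ v ∈ N m l 0, w ∉ B0 l v) ∧ ∀ i, ∀ v ∈ N m l (i + 1), w ∉ BS l i v := by
    intro m
    have hm : (0 : ℝ) < 1 / ((m : ℝ) + 1) := by positivity
    obtain ⟨L0, hL01, hL0⟩ := hK0 (n 0) hK0n _ hm
    obtain ⟨L1, hL11, hL1⟩ := hKS _ hm
    obtain ⟨l0, hl0⟩ := exists_nat_ge (max L0 L1)
    have hev : ∀ l : ℕ, l0 ≤ l → lawL d ((⋃ v ∈ N m l 0, B0 l v) ∪ ⋃ i, ⋃ v ∈ N m l (i + 1), BS l i v) ≤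
        ENNReal.ofReal (3 * Real.exp (-(l : ℝ))) := by
      intro l hl
      have hll : (max L0 L1 : ℝ) ≤ (l : ℝ) + 1 := by
        have : (l0 : ℝ) ≤ l := by exact_mod_cast hl
        linarith
      have hl1 : (0 : ℝ) ≤ l := Nat.cast_nonneg l
      have ha0 : ∀ v ∈ N m l 0, lawL d (B0 l v) ≤ ENNReal.ofReal (Real.exp (-((G + 2) * n 0 * ((l : ℝ) + 1)))) := by
        intro v hv
        obtain ⟨b1, b2, b3, b4, b5⟩ := hNB m l 0 hv
        rw [hB0]
        refine hL0 _ ((le_max_left _ _).trans hll) k e v.2.1 v.1 v.2.2 (-1) hec b1 b2 b4 b5 ?_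
        have h5 : et 0 = 1 / 200 := by unfold et; norm_num
        have h6 := hn1 0
        rw [h5]
        rw [pow_zero, mul_one] at h6
        nlinarith
      have haS : ∀ i, ∀ v ∈ N m l (i + 1), lawL d (BS l i v) ≤
          ENNReal.ofReal (Real.exp (-((G + 2) * n (i + 1) * ((l : ℝ) + 1)))) := by
        intro i v hv
        obtain ⟨b1, b2, b3, b4, b5⟩ := hNB m l (i + 1) hv
        rw [hBS]
        have h6 := hL1 _ ((le_max_right _ _).trans hll) i (n i) (J i) (hnJ i).1 ((hKle i).trans (hKn i)) (by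
          rw [← (hnJ i).2]
          exact (mul_le_mul_of_nonneg_right (hKle i) (by positivity)).trans (hKx i)) k e v.2.1 v.1 v.2.2 (-(J i + 1)) hec b1 b2
          b4 b5 (by
            have h7 : (1 : ℝ) ≤ J i := by exact_mod_cast (hnJ i).1
            have h8 : 50 ≤ et i * n i := by
              unfold et
              rw [div_mul_eq_mul_div, one_mul, le_div_iff₀ (by positivity)]
              linarith [hn1 i]
            have h9 : (0 : ℝ) < et i := et_pos i
            push_cast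
            have h10 : 50 * J i ≤ et i * (J i * (n i + 5)) := by nlinarith
            nlinarith)
        rw [← (hnJ i).2] at h6
        exact h6
      have hb0 : lawL d (⋃ v ∈ N m l 0, B0 l v) ≤ ENNReal.ofReal (Real.exp (-(l : ℝ))) := by
        refine (net_union (hNc m l 0) ha0).trans (ENNReal.ofReal_le_ofReal (Real.exp_le_exp.2 ?_))
        have h5 := hn3 0
        push_cast at h5
        nlinarith
      have hbS : lawL d (⋃ i, ⋃ v ∈ N m l (i + 1), BS l i v) ≤ ENNReal.ofReal (2 * Real.exp (-(l : ℝ))) := by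
        refine (measure_iUnion_le _).trans ?_
        have h5 : ∀ i, lawL d (⋃ v ∈ N m l (i + 1), BS l i v) ≤ ENNReal.ofReal (Real.exp (-(l : ℝ)) * (1 / 2) ^ i) := by
          intro i
          refine (net_union (hNc m l (i + 1)) (haS i)).trans (ENNReal.ofReal_le_ofReal ?_)
          have h6 := hn3 (i + 1)
          push_cast at h6
          have h7 : (0 : ℝ) ≤ i := Nat.cast_nonneg i
          calc Real.exp (-(2 * n (i + 1) * ((l : ℝ) + 1))) ≤ Real.exp (-(l : ℝ) + -(i : ℝ)) := by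
                refine Real.exp_le_exp.2 ?_
                nlinarith
            _ = Real.exp (-(l : ℝ)) * Real.exp (-(i : ℝ)) := Real.exp_add _ _
            _ ≤ Real.exp (-(l : ℝ)) * (1 / 2) ^ i := by
              refine mul_le_mul_of_nonneg_left ?_ (Real.exp_pos _).le
              have h8 : (2 : ℝ) ^ i ≤ Real.exp i := by
                have h9 : (2 : ℝ) ≤ Real.exp 1 := by
                  have := Real.add_one_le_exp (1 : ℝ)
                  linarith
                calc (2 : ℝ) ^ i ≤ Real.exp 1 ^ i := pow_le_pow_left₀ (by norm_num) h9 _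
                  _ = Real.exp i := by rw [← Real.exp_nat_mul, mul_one]
              rw [Real.exp_neg, one_div, inv_pow]
              exact inv_anti₀ (by positivity) h8
        refine (ENNReal.tsum_le_tsum h5).trans ?_
        rw [← ENNReal.ofReal_tsum_of_nonneg (fun i => by positivity)
          (summable_geometric_two.mul_left _), tsum_mul_left, tsum_geometric_two, mul_comm]
      refine (measure_union_le _ _).trans ((add_le_add hb0 hbS).trans ?_)
      rw [← ENNReal.ofReal_add (Real.exp_pos _).le (by positivity)]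
      refine ENNReal.ofReal_le_ofReal (le_of_eq ?_)
      ring
    obtain ⟨s, hs⟩ : ∃ s : ℕ → Set (Ow d), s = fun l => if l < l0 then ∅ else
        ((⋃ v ∈ N m l 0, B0 l v) ∪ ⋃ i, ⋃ v ∈ N m l (i + 1), BS l i v) := ⟨_, rfl⟩
    have hsum : ∑' l, lawL d (s l) ≠ ∞ := by
      have h5 : ∀ l, lawL d (s l) ≤ ENNReal.ofReal (3 * Real.exp (-(l : ℝ))) := by
        intro l
        rw [hs]
        dsimp only
        split_ifs with h6
        · simp
        · exact hev l (not_lt.1 h6)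
      refine ne_top_of_le_ne_top ?_ (ENNReal.tsum_le_tsum h5)
      rw [← ENNReal.ofReal_tsum_of_nonneg (fun i => by positivity) ?_]
      · exact ENNReal.ofReal_ne_top
      · refine Summable.mul_left 3 ?_
        exact Real.summable_exp_neg_nat
    filter_upwards [ae_eventually_notMem hsum] with w hw
    filter_upwards [hw, eventually_ge_atTop l0] with l h5 h6
    rw [hs] at h5
    dsimp only at h5
    rw [if_neg (not_lt.2 h6)] at h5
    constructor
    · intro v hv hwv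
      exact h5 (Or.inl (mem_biUnion hv hwv))
    · intro i v hv hwv
      exact h5 (Or.inr (mem_iUnion.2 ⟨i, mem_biUnion hv hwv⟩))
  filter_upwards [ae_all_iff.2 hprob, Pool.Agent.Helper82.AN.Hw_ae hγ, Pool.Agent.Helper82.AN.eta_lip hγ] with w hw hwt hwl D hD
  obtain ⟨Kw, hKw0, hKw⟩ := hwl
  obtain ⟨m, hm⟩ := exists_nat_one_div_lt hD
  obtain ⟨l1, hl1⟩ := eventually_atTop.1 (hw m)
  obtain ⟨l2, hl2⟩ := exists_nat_ge (max (max Kw (Hw γ w).toReal) 100)
  refine ⟨Real.exp ((l1 : ℝ) + l2 + 2), Real.one_le_exp (by positivity), fun α a U hα ha hU0 hU => ?_⟩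
  have ha0 : 0 < |a| := lt_of_lt_of_le (Real.exp_pos _) ha
  have hlog : (l1 : ℝ) + l2 + 2 ≤ Real.log |a| := (Real.le_log_iff_exp_le ha0).2 ha
  have hl1p : (0 : ℝ) ≤ l1 := Nat.cast_nonneg _
  have hl2p : (0 : ℝ) ≤ l2 := Nat.cast_nonneg _
  obtain ⟨q, hq⟩ : ∃ q : ℕ, q = ⌊Real.log |a|⌋₊ := ⟨_, rfl⟩
  have hq1 : (q : ℝ) ≤ Real.log |a| := by
    rw [hq]
    exact Nat.floor_le (by linarith)
  have hq2 : Real.log |a| < q + 1 := by
    rw [hq]
    exact Nat.lt_floor_add_one _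
  have hq3 : l1 + l2 + 1 < q + 1 := by
    have : ((l1 + l2 + 1 : ℕ) : ℝ) < ((q + 1 : ℕ) : ℝ) := by
      push_cast
      linarith
    exact_mod_cast this
  obtain ⟨l, rfl⟩ : ∃ l, q = l + 1 := ⟨q - 1, by omega⟩
  push_cast at hq1 hq2
  have hll1 : l1 ≤ l := by omega
  have hll2 : l2 ≤ l := by omega
  have hll2' : (l2 : ℝ) ≤ l := by exact_mod_cast hll2
  have hexp : (l : ℝ) + 1 ≤ Real.exp ((l : ℝ) + 1) := by
    have := Real.add_one_le_exp ((l : ℝ) + 1)
    linarith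
  have hKwl : Kw ≤ Real.exp ((l : ℝ) + 1) := by
    have := (le_max_left Kw (Hw γ w).toReal).trans ((le_max_left _ _).trans hl2)
    linarith
  have hHw : Hw γ w ≤ ENNReal.ofReal (Real.exp ((l : ℝ) + 1)) := by
    rw [← ENNReal.ofReal_toReal hwt]
    refine ENNReal.ofReal_le_ofReal ?_
    have := (le_max_right Kw (Hw γ w).toReal).trans ((le_max_left _ _).trans hl2)
    linarith
  have hlip : ∀ x y, |eta γ w x - eta γ w y| ≤ Real.exp ((l : ℝ) + 1) * dist x y := fun x y =>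
    (hKw x y).trans (mul_le_mul_of_nonneg_right hKwl dist_nonneg)
  have hL0 : (0 : ℝ) < (l : ℝ) + 1 := by positivity
  have hL100 : (100 : ℝ) < (l : ℝ) + 1 := by
    have := (le_max_right (max Kw (Hw γ w).toReal) 100).trans hl2
    linarith
  have hu : ((a, U, α) : ℝ × (Fin (k + 1) → ℝ) × Td d) ∈ Bx k ((l : ℝ) + 1) {α : Td d | DC (1 / ((m : ℝ) + 1)) τ α} := by
    refine ⟨?_, ?_, fun i => ?_, ?_, dc_mono hα hm.le⟩
    · exact (Real.le_log_iff_exp_le ha0).1 hq1
    · exact ((Real.log_lt_iff_lt_exp ha0).1 hq2).le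
    · exact (hU i).trans ((Real.log_lt_iff_lt_exp ha0).1 hq2).le
    · refine le_trans ?_ hU0
      rw [Real.rpow_def_of_pos ha0]
      refine Real.exp_le_exp.2 ?_
      linarith
  obtain ⟨hw0, hwS⟩ := hl1 l hll1
  have hbc : Continuous (frc γ e U w) := frc_cont hec U hwt
  have hh0 : volume.real {θ | sq α (frc γ e U w) θ ∈ Ev0 a ((l : ℝ) + 1) (n 0) 0} ≤ et 0 := by
    obtain ⟨v, hv, hvn⟩ := hNn m l 0 _ hu
    have h5 := hw0 v hv
    rw [hB0] at h5
    have h6 : volume.real {θ : Td d | sq v.2.2 (frc γ e v.2.1 w) θ ∈ Ev0 v.1 ((l : ℝ) + 1) (n 0) (-1)} < et 0 := not_le.1 h5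
    refine (measureReal_mono ?_).trans h6.le
    intro θ hθ
    refine ev0_near hL0.le (fun z => ?_) hθ
    have h7 := abs_le.1 (hvn w hHw hlip θ 0 (n 0) (by omega) z)
    rw [shb_zero, shb_zero] at h7
    linarith [h7.1]
  have hhS : ∀ i, volume.real {θ | sq α (frc γ e U w) θ ∈ EvS a ((l : ℝ) + 1) i (n i) (J i) 0} ≤ et (i + 1) := by
    intro i
    obtain ⟨v, hv, hvn⟩ := hNn m l (i + 1) _ hu
    have h5 := hwS i v hv
    rw [hBS] at h5
    have h6 : volume.real {θ : Td d | sq v.2.2 (frc γ e v.2.1 w) θ ∈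
        EvS v.1 ((l : ℝ) + 1) i (n i) (J i) (-(J i + 1))} < et (i + 1) := not_le.1 h5
    refine (measureReal_mono ?_).trans h6.le
    intro θ hθ
    refine evS_near hL0.le (fun m1 m2 h z => ?_) hθ
    exact hvn w hHw hlip θ m1 m2 (by rw [(hnJ i).2]; exact h) z
  refine lv_of (fun hc hδ b => Pool.Agent.Helper6.AF.rr_mem hc hδ b) (fun a n _ _ _ hc hδ => Pool.Agent.Helper4.AF.rr_meas a n hc hδ)
    hbc hL100 ?_ hn2 (rec_mean hbc hL0 hnJ hn1 hh0 hhS)
  rw [abs_le]
  constructor <;> linarith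

end Pool.Agent.Helper5.AF
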